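import Pool.Agent.Helper74.DR.St

/-! # Project DR, module COD: codes exist -/

set_option autoImplicit false

namespace Pool.Agent.Helper30.DR

open Pool.Agent.Helper74.DR

/-- The word with `true` at place `k` and `false` elsewhere, written in pairs `(b, false)`. -/
def cw (N : ℕ) (k : Fin N) : List Bool :=
  (List.ofFn fun j : Fin N => decide (j = k)).flatMap fun b => [b, false]

theorem ev_pairs (l : List Bool) : Ev (l.flatMap fun b => [b, false]) := by
  induction l with
  | nil => exact trivial
  | cons a l ih => exact ⟨rfl, ih⟩

theorem len_pairs (l : List Bool) : (l.flatMap fun b => [b, false]).length = 2 * l.length := by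
  induction l with
  | nil => rfl
  | cons a l ih =>
    rw [List.flatMap_cons, List.length_append, ih]
    simp only [List.length_cons, List.length_nil]
    ring

theorem inj_pairs : Function.Injective fun l : List Bool => l.flatMap fun b => [b, false] := by
  intro l
  induction l with
  | nil =>
    intro m h
    cases m with
    | nil => rfl
    | cons b m => simp at h
  | cons a l ih =>
    intro m h
    cases m with
    | nil => simp at h
    | cons b m =>
      have h' : a :: false :: (l.flatMap fun b => [b, false]) =
          b :: false :: (m.flatMap fun b => [b, false]) := h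
      injection h' with h1 h2
      injection h2 with h3 h4
      rw [h1, ih h4]

theorem hCOD : StCOD := by
  intro W _ _
  obtain ⟨N, ⟨e⟩⟩ := Finite.exists_equiv_fin W
  refine ⟨fun X => cw N (e X), fun X => ev_pairs _, ⟨2 * N, ?_, fun X => ?_⟩, ?_⟩
  · have : Nonempty (Fin N) := ⟨e (Classical.arbitrary W)⟩
    have hN : 0 < N := Fin.pos_iff_nonempty.2 this
    omega
  · show ((List.ofFn fun j : Fin N => decide (j = e X)).flatMap fun b => [b, false]).length = 2 * N
    rw [len_pairs, List.length_ofFn]
  · intro X Y h
    have h1 : (List.ofFn fun j : Fin N => decide (j = e X)) =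
        List.ofFn fun j : Fin N => decide (j = e Y) := inj_pairs h
    have h2 := List.ofFn_injective h1
    have h3 : decide (e X = e X) = decide (e X = e Y) := congrFun h2 (e X)
    simp only [decide_true] at h3
    exact e.injective (of_decide_eq_true h3.symm)

end Pool.Agent.Helper30.DR
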